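import Pool.Agent.W712.WR.Stm

/-!
Part WR-PERMAN of project WR (helper712): permanence with variable rates from the parts
`FieldStm`, `NoExitACStm`, `CaraStm`, `UniqStm`.
-/

set_option autoImplicit false

namespace Pool.Agent.W287.WR.Perman

open W712.WR Finset MeasureTheory

/-- the linear functional `x ↦ ∑ w j * x j` -/
noncomputable def Lw {n : ℕ} (w : Fin n → ℝ) : (Fin n → ℝ) →L[ℝ] ℝ :=
  ∑ j, w j • ContinuousLinearMap.proj (R := ℝ) (φ := fun _ : Fin n => ℝ) j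

theorem Lw_apply {n : ℕ} (w x : Fin n → ℝ) : Lw w x = ∑ j, w j * x j := by
  simp [Lw]

/-- composition of an absolutely continuous curve with a linear functional -/
theorem ac_lin {n : ℕ} {y : ℝ → Fin n → ℝ} {a b : ℝ}
    (h : AbsolutelyContinuousOnInterval y a b) (l : (Fin n → ℝ) →L[ℝ] ℝ) :
    AbsolutelyContinuousOnInterval (fun t => l (y t)) a b := by
  apply squeeze_zero (fun t => ?_) (fun t => ?_) (by simpa using Filter.Tendsto.const_mul ‖l‖ h)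
  · exact Finset.sum_nonneg (fun i _ => dist_nonneg)
  · rw [Finset.mul_sum]
    refine Finset.sum_le_sum fun i _ => ?_
    rw [dist_eq_norm, dist_eq_norm, ← map_sub]
    exact l.le_opNorm _

/-- the no-exit principle for the moving body `K_{R - η t}` -/
theorem core (hNE : NoExitACStm) {n : ℕ} (T : Finset ((Fin n → ℝ) × (ℝ → ℝ)))
    (y v : ℝ → Fin n → ℝ) (a b c₀ R η : ℝ) (hab : a ≤ b) (hc : 0 < c₀)
    (hT : ∀ p ∈ T, ContDiff ℝ 1 p.2)
    (hy : AbsolutelyContinuousOnInterval y a b)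
    (hd : ∀ᵐ t, t ∈ Set.Icc a b → HasDerivAt y (v t) t)
    (h0 : ∀ p ∈ T, ∑ j, p.1 j * y a j - p.2 (R - η * a) ≤ 0)
    (hmax : ∀ t ∈ Set.Icc a b, ∀ p ∈ T,
      (∀ q ∈ T, ∑ j, q.1 j * y t j - q.2 (R - η * t) ≤ ∑ j, p.1 j * y t j - p.2 (R - η * t)) →
      0 ≤ ∑ j, p.1 j * y t j - p.2 (R - η * t) →
      ∑ j, p.1 j * y t j - p.2 (R - η * t) ≤ c₀ →
      ∑ j, p.1 j * v t j + η * deriv p.2 (R - η * t) ≤ 0) :
    ∀ t ∈ Set.Icc a b, ∀ p ∈ T, ∑ j, p.1 j * y t j - p.2 (R - η * t) ≤ 0 := by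
  have key := hNE {p // p ∈ T} (fun p t => ∑ j, p.1.1 j * y t j - p.1.2 (R - η * t))
    (fun p t => ∑ j, p.1.1 j * v t j + η * deriv p.1.2 (R - η * t)) a b c₀ hab hc ?_ ?_ ?_ ?_
  · intro t ht p hp
    exact key t ht ⟨p, hp⟩
  · rintro ⟨p, hp⟩
    have h1 : AbsolutelyContinuousOnInterval (fun t => ∑ j, p.1 j * y t j) a b := by
      have := ac_lin hy (Lw p.1)
      simpa only [Lw_apply] using this
    have h2 : AbsolutelyContinuousOnInterval (fun t => p.2 (R - η * t)) a b := by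
      apply ContDiffOn.absolutelyContinuousOnInterval
      apply ContDiff.contDiffOn
      exact (hT p hp).comp (by fun_prop)
    exact h1.fun_sub h2
  · rintro ⟨p, hp⟩
    filter_upwards [hd] with t ht htab
    have h1 : HasDerivAt (fun t => ∑ j, p.1 j * y t j) (∑ j, p.1 j * v t j) t := by
      have := (Lw p.1).hasFDerivAt.comp_hasDerivAt t (ht htab)
      simpa only [Lw_apply, Function.comp_def] using this
    have h3 : HasDerivAt (fun t : ℝ => R - η * t) (-η) t := by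
      have := ((hasDerivAt_id t).const_mul η).const_sub R
      simpa using this
    have h4 : HasDerivAt p.2 (deriv p.2 (R - η * t)) (R - η * t) :=
      ((hT p hp).differentiable (by norm_num)).differentiableAt.hasDerivAt
    have h5 := h4.comp t h3
    have h6 := h1.sub h5
    have h7 : ∑ j, p.1 j * v t j + η * deriv p.2 (R - η * t) =
        ∑ j, p.1 j * v t j - deriv p.2 (R - η * t) * (-η) := by ring
    show HasDerivAt (fun t => ∑ j, p.1 j * y t j - p.2 (R - η * t))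
      (∑ j, p.1 j * v t j + η * deriv p.2 (R - η * t)) t
    rw [h7]
    exact h6
  · rintro ⟨p, hp⟩
    exact h0 p hp
  · refine Filter.Eventually.of_forall ?_
    rintro t ht ⟨p, hp⟩ h1 h2 h3
    exact hmax t ht p hp (fun q hq => h1 ⟨q, hq⟩) h2 h3

/-- the data provided by `FieldStm` -/
structure Dat {n : ℕ} (E : Finset ((Fin n → ℝ) × (Fin n → ℝ))) (ε : ℝ)
    (T : Finset ((Fin n → ℝ) × (ℝ → ℝ))) (c M : ℝ → ℝ) (R0 : ℝ) : Prop where
  cc : Continuous c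
  cM : Continuous M
  cpos : ∀ R, 0 < c R
  smooth : ∀ p ∈ T, ContDiff ℝ 1 p.2
  exh : ∀ x : Fin n → ℝ, (∀ j, 0 < x j) → ∃ R1 : ℝ, ∀ R, R1 ≤ R →
      ∀ p ∈ T, ∑ j, p.1 j * x j < p.2 R
  bnd : ∀ R, R0 ≤ R → ∀ x : Fin n → ℝ,
      (∀ p ∈ T, ∑ j, p.1 j * x j - p.2 R ≤ c R) → ∀ j, c R ≤ x j ∧ x j ≤ M R
  inw : ∀ R, R0 ≤ R → ∀ x : Fin n → ℝ, ∀ k : (Fin n → ℝ) × (Fin n → ℝ) → ℝ,
      (∀ e ∈ E, ε ≤ k e ∧ k e ≤ 1 / ε) → ∀ p ∈ T,
      (∀ q ∈ T, ∑ j, q.1 j * x j - q.2 R ≤ ∑ j, p.1 j * x j - p.2 R) →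
      0 ≤ ∑ j, p.1 j * x j - p.2 R → ∑ j, p.1 j * x j - p.2 R ≤ c R →
      ∑ j, p.1 j * fld E k x j ≤ 0
  kap : ∀ R1 R2, R0 ≤ R1 → ∃ κ : ℝ, 0 < κ ∧ ∀ R, R1 ≤ R → R ≤ R2 → ∀ x : Fin n → ℝ,
      ∀ k : (Fin n → ℝ) × (Fin n → ℝ) → ℝ, (∀ e ∈ E, ε ≤ k e ∧ k e ≤ 1 / ε) → ∀ p ∈ T,
      (∃ e ∈ E, ∑ j, p.1 j * (e.2 j - e.1 j) ≠ 0) →
      (∀ q ∈ T, ∑ j, q.1 j * x j - q.2 R ≤ ∑ j, p.1 j * x j - p.2 R) →
      0 ≤ ∑ j, p.1 j * x j - p.2 R → ∑ j, p.1 j * x j - p.2 R ≤ c R →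
      ∑ j, p.1 j * fld E k x j ≤ -κ

section

variable {n : ℕ} {E : Finset ((Fin n → ℝ) × (Fin n → ℝ))} {ε : ℝ}
  {T : Finset ((Fin n → ℝ) × (ℝ → ℝ))} {c M : ℝ → ℝ} {R0 : ℝ}

theorem stay (hNE : NoExitACStm) (D : Dat E ε T c M R0)
    (k : (Fin n → ℝ) × (Fin n → ℝ) → ℝ → ℝ)
    (hk : ∀ e ∈ E, ∀ t : ℝ, ε ≤ k e t ∧ k e t ≤ 1 / ε) (R : ℝ) (hR : R0 ≤ R)
    (y v : ℝ → Fin n → ℝ) (a b : ℝ) (hab : a ≤ b) (hy : AbsolutelyContinuousOnInterval y a b)
    (hd : ∀ᵐ t, t ∈ Set.Icc a b → HasDerivAt y (v t) t)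
    (hv : ∀ t, (∀ j, c R ≤ y t j ∧ y t j ≤ M R) → v t = fld E (fun e => k e t) (y t))
    (h0 : ∀ p ∈ T, ∑ j, p.1 j * y a j - p.2 R ≤ 0) :
    ∀ t ∈ Set.Icc a b, ∀ p ∈ T, ∑ j, p.1 j * y t j - p.2 R ≤ 0 := by
  have key := core hNE T y v a b (c R) R 0 hab (D.cpos R) D.smooth hy hd
    (by intro p hp; simpa using h0 p hp) ?_
  · intro t ht p hp
    simpa using key t ht p hp
  · intro t ht p hp h1 h2 h3
    simp only [zero_mul, sub_zero, add_zero] at h1 h2 h3 ⊢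
    have hbox : ∀ j, c R ≤ y t j ∧ y t j ≤ M R :=
      D.bnd R hR (y t) (fun q hq => (h1 q hq).trans h3)
    rw [hv t hbox]
    exact D.inw R hR (y t) (fun e => k e t) (fun e he => hk e he t) p hp h1 h2 h3

/-- every vector field value lies in the stoichiometric subspace -/
theorem fld_mem (k : (Fin n → ℝ) × (Fin n → ℝ) → ℝ) (x : Fin n → ℝ) :
    fld E k x ∈ Submodule.span ℝ {v | ∃ e ∈ E, v = e.2 - e.1} := by
  unfold fld
  refine Submodule.sum_mem _ fun e he => Submodule.smul_mem _ _ (Submodule.subset_span ⟨e, he, rfl⟩)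

/-- solutions stay in their class -/
theorem in_cls (x₀ : Fin n → ℝ) (k : (Fin n → ℝ) × (Fin n → ℝ) → ℝ → ℝ)
    (J : Set ℝ) (hJ : J.OrdConnected) (h0J : (0 : ℝ) ∈ J) (hJ0 : J ⊆ Set.Ici 0)
    (y : ℝ → Fin n → ℝ) (hy : IsSol E k y J) (hy0 : y 0 ∈ cls E x₀) :
    ∀ t ∈ J, y t ∈ cls E x₀ := by
  intro t ht
  refine ⟨hy.pos t ht, ?_⟩
  have ht0 : (0 : ℝ) ≤ t := hJ0 ht
  have hsub : y t - y 0 ∈ Submodule.span ℝ {v : Fin n → ℝ | ∃ e ∈ E, v = e.2 - e.1} := by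
    rw [← Subspace.forall_mem_dualAnnihilator_apply_eq_zero_iff]
    intro φ hφ
    rw [Submodule.mem_dualAnnihilator] at hφ
    set l : (Fin n → ℝ) →L[ℝ] ℝ := LinearMap.toContinuousLinearMap φ with hl
    have hlφ : ∀ z, l z = φ z := fun z => rfl
    have h1 : AbsolutelyContinuousOnInterval (fun s => l (y s)) 0 t :=
      ac_lin (hy.ac 0 h0J t ht ht0) l
    obtain ⟨C, hC⟩ := h1.const_of_ae_hasDerivAt_zero (by
      filter_upwards [hy.ode] with s hs hsmem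
      rw [Set.uIcc_of_le ht0] at hsmem
      have hsJ : s ∈ J := hJ.out h0J ht hsmem
      have h2 := l.hasFDerivAt.comp_hasDerivAt s (hs hsJ)
      have h3 : l (fld E (fun e => k e s) (y s)) = 0 := by
        rw [hlφ]
        exact hφ _ (fld_mem _ _)
      rw [h3] at h2
      exact h2)
    have e1 := hC t (by rw [Set.uIcc_of_le ht0]; exact ⟨ht0, le_rfl⟩)
    have e2 := hC 0 (by rw [Set.uIcc_of_le ht0]; exact ⟨le_rfl, ht0⟩)
    have : l (y t) - l (y 0) = 0 := by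
      have e1' : l (y t) = C := e1
      have e2' : l (y 0) = C := e2
      rw [e1', e2', sub_self]
    rw [map_sub]
    exact this
  have := Submodule.add_mem _ hsub hy0.2
  convert this using 1
  abel

/-- functionals vanishing on the stoichiometric subspace are constant on the class -/
theorem val_cls (x₀ : Fin n → ℝ) (w : Fin n → ℝ)
    (hw : ∀ e ∈ E, ∑ j, w j * (e.2 j - e.1 j) = 0) (z : Fin n → ℝ) (hz : z ∈ cls E x₀) :
    ∑ j, w j * z j = ∑ j, w j * x₀ j := by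
  have h1 : ∀ v ∈ Submodule.span ℝ {v : Fin n → ℝ | ∃ e ∈ E, v = e.2 - e.1}, Lw w v = 0 := by
    intro v hv
    induction hv using Submodule.span_induction with
    | mem x hx =>
      obtain ⟨e, he, rfl⟩ := hx
      rw [Lw_apply]
      simpa using hw e he
    | zero => simp
    | add x y _ _ hx hy => rw [map_add, hx, hy, add_zero]
    | smul r x _ hx => rw [map_smul, hx, smul_zero]
  have h2 := h1 _ hz.2
  rw [map_sub, Lw_apply, Lw_apply] at h2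
  linarith

/-- the compact set -/
theorem compactK (D : Dat E ε T c M R0) (x₀ : Fin n → ℝ) (R : ℝ) (hR : R0 ≤ R) :
    IsCompact {z | z ∈ cls E x₀ ∧ ∀ p ∈ T, ∑ j, p.1 j * z j - p.2 R ≤ 0} := by
  have heq : {z | z ∈ cls E x₀ ∧ ∀ p ∈ T, ∑ j, p.1 j * z j - p.2 R ≤ 0} =
      {z : Fin n → ℝ | z - x₀ ∈ Submodule.span ℝ {v : Fin n → ℝ | ∃ e ∈ E, v = e.2 - e.1} ∧
        ∀ p ∈ T, ∑ j, p.1 j * z j - p.2 R ≤ 0} := by
    ext z
    constructor
    · rintro ⟨h1, h2⟩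
      exact ⟨h1.2, h2⟩
    · rintro ⟨h1, h2⟩
      refine ⟨⟨fun i => ?_, h1⟩, h2⟩
      exact lt_of_lt_of_le (D.cpos R)
        (D.bnd R hR z (fun p hp => (h2 p hp).trans (D.cpos R).le) i).1
  rw [heq]
  refine IsCompact.of_isClosed_subset (isCompact_Icc (a := fun _ : Fin n => c R)
    (b := fun _ : Fin n => M R)) ?_ ?_
  · have h1 : IsClosed {z : Fin n → ℝ |
        z - x₀ ∈ Submodule.span ℝ {v : Fin n → ℝ | ∃ e ∈ E, v = e.2 - e.1}} := by
      have h2 : IsClosed ((Submodule.span ℝ {v : Fin n → ℝ | ∃ e ∈ E, v = e.2 - e.1} :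
          Submodule ℝ (Fin n → ℝ)) : Set (Fin n → ℝ)) := Submodule.closed_of_finiteDimensional _
      exact h2.preimage (continuous_id.sub continuous_const)
    have h3 : IsClosed {z : Fin n → ℝ | ∀ p ∈ T, ∑ j, p.1 j * z j - p.2 R ≤ 0} := by
      simp only [Set.ofPred_forall]
      refine isClosed_iInter fun p => isClosed_iInter fun _ => ?_
      refine isClosed_le ?_ continuous_const
      fun_prop
    exact h1.inter h3
  · rintro z ⟨_, h2⟩
    have := D.bnd R hR z (fun p hp => (h2 p hp).trans (D.cpos R).le)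
    exact ⟨fun j => (this j).1, fun j => (this j).2⟩

/-- the clamped field -/
theorem clamp_field (hε : 0 < ε) (k : (Fin n → ℝ) × (Fin n → ℝ) → ℝ → ℝ)
    (hm : ∀ e ∈ E, Measurable (k e))
    (hk : ∀ e ∈ E, ∀ t, ε ≤ k e t ∧ k e t ≤ 1 / ε) (m N : ℝ) (hm0 : 0 < m) (hmN : m ≤ N) :
    ∃ (G : ℝ → (Fin n → ℝ) → (Fin n → ℝ)) (L B : NNReal),
      (∀ x, Measurable (fun t => G t x)) ∧ (∀ t, LipschitzWith L (G t)) ∧
      (∀ t x, ‖G t x‖ ≤ B) ∧
      ∀ t x, (∀ j, m ≤ x j ∧ x j ≤ N) → G t x = fld E (fun e => k e t) x := by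
  classical
  set cl : (Fin n → ℝ) → (Fin n → ℝ) := fun z j => max m (min (z j) N) with hcl
  have hclL : LipschitzWith 1 cl := by
    refine LipschitzWith.of_dist_le_mul fun x y => ?_
    rw [NNReal.coe_one, one_mul, dist_pi_le_iff dist_nonneg]
    intro j
    have h1 : LipschitzWith 1 (fun r : ℝ => max m (min r N)) :=
      (LipschitzWith.id.min_const N).const_max m
    calc dist (cl x j) (cl y j) ≤ 1 * dist (x j) (y j) := h1.dist_le_mul _ _
      _ = dist (x j) (y j) := one_mul _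
      _ ≤ dist x y := dist_le_pi_dist x y j
  have hclm : ∀ z, cl z ∈ Set.Icc (fun _ : Fin n => m) (fun _ : Fin n => N) := by
    intro z
    refine ⟨fun j => le_max_left _ _, fun j => max_le hmN (min_le_right _ _)⟩
  have hclid : ∀ z : Fin n → ℝ, (∀ j, m ≤ z j ∧ z j ≤ N) → cl z = z := by
    intro z hz
    funext j
    simp only [hcl]
    rw [min_eq_left (hz j).2, max_eq_right (hz j).1]
  set φ : (Fin n → ℝ) × (Fin n → ℝ) → (Fin n → ℝ) → ℝ := fun e z => ∏ i, z i ^ (e.1 i) with hφ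
  have hsm : ∀ e, ContDiffOn ℝ 1 (φ e) (Set.Icc (fun _ : Fin n => m) (fun _ : Fin n => N)) := by
    intro e
    simp only [hφ]
    refine contDiffOn_prod fun i _ => ?_
    intro z hz
    have hpos : z i ≠ 0 := (lt_of_lt_of_le hm0 (hz.1 i)).ne'
    have h1 : ContDiffAt ℝ 1 (fun z : Fin n → ℝ => z i) z := by fun_prop
    exact (h1.rpow_const_of_ne hpos).contDiffWithinAt
  have hK : ∀ e, ∃ K : NNReal, LipschitzOnWith K (φ e)
      (Set.Icc (fun _ : Fin n => m) (fun _ : Fin n => N)) := fun e =>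
    (hsm e).exists_lipschitzOnWith (by norm_num) (convex_Icc _ _) isCompact_Icc
  choose K hK using hK
  have hB : ∀ e, ∃ B : ℝ, ∀ z ∈ Set.Icc (fun _ : Fin n => m) (fun _ : Fin n => N),
      ‖φ e z‖ ≤ B := fun e =>
    isCompact_Icc.exists_bound_of_continuousOn (hsm e).continuousOn
  choose B hB using hB
  have hB0 : ∀ e, 0 ≤ B e := fun e => (norm_nonneg _).trans (hB e _ (hclm 0))
  have hk0 : ∀ e ∈ E, ∀ t, |k e t| ≤ 1 / ε := by
    intro e he t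
    rw [abs_of_nonneg (hε.le.trans (hk e he t).1)]
    exact (hk e he t).2
  have h1ε : 0 ≤ 1 / ε := by positivity
  refine ⟨fun t z => ∑ e ∈ E, (k e t * φ e (cl z)) • (e.2 - e.1),
    ⟨∑ e ∈ E, 1 / ε * K e * ‖e.2 - e.1‖, Finset.sum_nonneg fun e _ => by positivity⟩,
    ⟨∑ e ∈ E, 1 / ε * B e * ‖e.2 - e.1‖, Finset.sum_nonneg fun e _ =>
      mul_nonneg (mul_nonneg h1ε (hB0 e)) (norm_nonneg _)⟩, ?_, ?_, ?_, ?_⟩
  · intro x
    refine Finset.measurable_sum _ fun e he => ?_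
    exact ((hm e he).mul_const _).smul_const _
  · intro t
    refine LipschitzWith.of_dist_le_mul fun x y => ?_
    rw [dist_eq_norm, ← Finset.sum_sub_distrib]
    show _ ≤ (∑ e ∈ E, 1 / ε * K e * ‖e.2 - e.1‖) * dist x y
    rw [Finset.sum_mul]
    refine (norm_sum_le _ _).trans (Finset.sum_le_sum fun e he => ?_)
    rw [← sub_smul, norm_smul, ← mul_sub, norm_mul]
    have h2 : ‖φ e (cl x) - φ e (cl y)‖ ≤ K e * dist x y := by
      rw [← dist_eq_norm]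
      refine ((hK e).dist_le_mul _ (hclm x) _ (hclm y)).trans ?_
      refine mul_le_mul_of_nonneg_left ?_ (K e).2
      simpa using hclL.dist_le_mul x y
    calc ‖k e t‖ * ‖φ e (cl x) - φ e (cl y)‖ * ‖e.2 - e.1‖
        ≤ 1 / ε * (K e * dist x y) * ‖e.2 - e.1‖ := by
          refine mul_le_mul_of_nonneg_right ?_ (norm_nonneg _)
          exact mul_le_mul (hk0 e he t) h2 (norm_nonneg _) h1ε
      _ = 1 / ε * K e * ‖e.2 - e.1‖ * dist x y := by ring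
  · intro t x
    show _ ≤ ∑ e ∈ E, 1 / ε * B e * ‖e.2 - e.1‖
    refine (norm_sum_le _ _).trans (Finset.sum_le_sum fun e he => ?_)
    rw [norm_smul, norm_mul]
    refine mul_le_mul_of_nonneg_right ?_ (norm_nonneg _)
    exact mul_le_mul (hk0 e he t) (hB e _ (hclm x)) (norm_nonneg _) h1ε
  · intro t x hx
    unfold fld
    refine Finset.sum_congr rfl fun e he => ?_
    rw [hclid x hx]


theorem ae_ne_zero : ∀ᵐ t : ℝ, t ≠ 0 := by
  have : (volume : Measure ℝ) {(0 : ℝ)} = 0 := measure_singleton _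
  rw [ae_iff]
  simpa using this

/-- existence of a global solution, and uniqueness -/
theorem exists_sol (hNE : NoExitACStm) (hCA : CaraStm) (hUQ : UniqStm) (hε : 0 < ε)
    (D : Dat E ε T c M R0) (k : (Fin n → ℝ) × (Fin n → ℝ) → ℝ → ℝ)
    (hm : ∀ e ∈ E, Measurable (k e))
    (hk : ∀ e ∈ E, ∀ t, ε ≤ k e t ∧ k e t ≤ 1 / ε) (z : Fin n → ℝ) (hz : ∀ i, 0 < z i) :
    ∃ y : ℝ → Fin n → ℝ, y 0 = z ∧ IsSol E k y (Set.Ici 0) ∧
      ∀ (J : Set ℝ) (x : ℝ → Fin n → ℝ), J.OrdConnected → (0 : ℝ) ∈ J → J ⊆ Set.Ici 0 →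
        IsSol E k x J → x 0 = z → ∀ t ∈ J, y t = x t := by
  obtain ⟨R', hR'⟩ := D.exh z hz
  set R := max R0 R' with hR
  have hR0 : R0 ≤ R := le_max_left _ _
  have hval0 : ∀ p ∈ T, ∑ j, p.1 j * z j - p.2 R ≤ 0 := fun p hp => by
    have := hR' R (le_max_right _ _) p hp
    linarith
  obtain ⟨G, L, B, hGm, hGL, hGB, hGf⟩ := clamp_field (E := E) hε k hm hk (c R) (max (M R) (c R))
    (D.cpos R) (le_max_right _ _)
  have hGf' : ∀ t x, (∀ j, c R ≤ x j ∧ x j ≤ M R) → G t x = fld E (fun e => k e t) x :=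
    fun t x hx => hGf t x (fun j => ⟨(hx j).1, (hx j).2.trans (le_max_left _ _)⟩)
  obtain ⟨y, hy0, hyL, hyd⟩ := hCA n G L B hGm hGL hGB z
  have hyac : ∀ a b : ℝ, 0 ≤ a → a ≤ b → AbsolutelyContinuousOnInterval y a b := by
    intro a b ha hab
    refine (hyL.mono ?_).absolutelyContinuousOnInterval
    rw [Set.uIcc_of_le hab]
    intro t ht
    exact ha.trans ht.1
  have hyd' : ∀ᵐ t, t ∈ Set.Ici (0 : ℝ) → HasDerivAt y (G t (y t)) t := by
    filter_upwards [hyd, ae_ne_zero] with t ht ht0 htm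
    exact ht (lt_of_le_of_ne htm (Ne.symm ht0))
  have hybox : ∀ t, 0 ≤ t → ∀ p ∈ T, ∑ j, p.1 j * y t j - p.2 R ≤ 0 := by
    intro t ht
    refine stay hNE D k hk R hR0 y (fun t => G t (y t)) 0 t ht (hyac 0 t le_rfl ht) ?_
      (fun s hs => hGf' s (y s) hs) (by rw [hy0]; exact hval0) t ⟨ht, le_rfl⟩
    filter_upwards [hyd'] with s hs hsm
    exact hs hsm.1
  have hbox : ∀ w : Fin n → ℝ, (∀ p ∈ T, ∑ j, p.1 j * w j - p.2 R ≤ 0) →
      ∀ j, c R ≤ w j ∧ w j ≤ M R := fun w hw =>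
    D.bnd R hR0 w (fun p hp => (hw p hp).trans (D.cpos R).le)
  refine ⟨y, hy0, ⟨?_, ?_, ?_⟩, ?_⟩
  · intro t ht i
    exact (D.cpos R).trans_le (hbox _ (hybox t ht) i).1
  · intro a ha b _ hab
    exact hyac a b ha hab
  · filter_upwards [hyd'] with t ht htm
    rw [← hGf' t (y t) (hbox _ (hybox t htm))]
    exact ht htm
  · intro J x hJ h0J hJ0 hx hx0 t ht
    have ht0 : (0 : ℝ) ≤ t := hJ0 ht
    have hxac := hx.ac 0 h0J t ht ht0
    have hxd : ∀ᵐ s, s ∈ Set.Icc 0 t → HasDerivAt x (fld E (fun e => k e s) (x s)) s := by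
      filter_upwards [hx.ode] with s hs hsm
      exact hs (hJ.out h0J ht hsm)
    have hxbox : ∀ s ∈ Set.Icc 0 t, ∀ p ∈ T, ∑ j, p.1 j * x s j - p.2 R ≤ 0 :=
      stay hNE D k hk R hR0 x (fun s => fld E (fun e => k e s) (x s)) 0 t ht0 hxac hxd
        (fun s _ => rfl) (by rw [hx0]; exact hval0)
    refine hUQ n G L hGL y x t ht0 (hyac 0 t le_rfl ht0) hxac ?_ ?_ (by rw [hy0, hx0]) t
      ⟨ht0, le_rfl⟩
    · filter_upwards [hyd'] with s hs hsm
      exact hs hsm.1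
    · filter_upwards [hxd] with s hs hsm
      rw [hGf' s (x s) (hbox _ (hxbox s hsm))]
      exact hs hsm

/-- every solution is eventually in the compact set -/
theorem absorb (hNE : NoExitACStm) (D : Dat E ε T c M R0) (x₀ : Fin n → ℝ)
    (k : (Fin n → ℝ) × (Fin n → ℝ) → ℝ → ℝ)
    (hk : ∀ e ∈ E, ∀ t, ε ≤ k e t ∧ k e t ≤ 1 / ε) (R1 : ℝ) (hR1 : R0 ≤ R1)
    (hx₀ : ∀ R, R1 ≤ R → ∀ p ∈ T, ∑ j, p.1 j * x₀ j < p.2 R)
    (y : ℝ → Fin n → ℝ) (hy : IsSol E k y (Set.Ici 0)) (hy0 : y 0 ∈ cls E x₀) :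
    ∃ t₀ : ℝ, 0 < t₀ ∧ ∀ t, t₀ < t →
      y t ∈ {z | z ∈ cls E x₀ ∧ ∀ p ∈ T, ∑ j, p.1 j * z j - p.2 R1 ≤ 0} := by
  have hcls := in_cls x₀ k (Set.Ici 0) Set.ordConnected_Ici (Set.mem_Ici.2 le_rfl) le_rfl y hy hy0
  obtain ⟨R', hR'⟩ := D.exh (y 0) (hy.pos 0 (Set.mem_Ici.2 le_rfl))
  set R2 := max R1 R' with hR2
  have h12 : R1 ≤ R2 := le_max_left _ _
  obtain ⟨κ, hκ, hkap⟩ := D.kap R1 R2 hR1
  obtain ⟨Dh, hDh⟩ : ∃ Dh : ℝ, ∀ R ∈ Set.Icc R1 R2, ‖∑ p ∈ T, |deriv p.2 R|‖ ≤ Dh := by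
    refine isCompact_Icc.exists_bound_of_continuousOn (Continuous.continuousOn ?_)
    refine continuous_finsetSum _ fun p hp => ?_
    exact ((D.smooth p hp).continuous_deriv (by norm_num)).abs
  have hDh0 : 0 ≤ Dh := (norm_nonneg _).trans (hDh R1 ⟨le_rfl, h12⟩)
  have hDh' : ∀ p ∈ T, ∀ R ∈ Set.Icc R1 R2, deriv p.2 R ≤ Dh := by
    intro p hp R hR
    refine le_trans ((le_abs_self _).trans ?_) (hDh R hR)
    rw [Real.norm_of_nonneg (Finset.sum_nonneg fun p _ => abs_nonneg _)]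
    exact Finset.single_le_sum (f := fun p : (Fin n → ℝ) × (ℝ → ℝ) => |deriv p.2 R|)
      (fun p _ => abs_nonneg _) hp
  obtain ⟨Rm, _, hRm⟩ := isCompact_Icc.exists_isMinOn (s := Set.Icc R1 R2) ⟨R1, le_rfl, h12⟩
    D.cc.continuousOn
  set η := κ / (1 + Dh) with hη
  have hη0 : 0 < η := by positivity
  have hηD : η * Dh ≤ κ := by
    rw [hη, div_mul_eq_mul_div, div_le_iff₀ (by positivity)]
    nlinarith
  set t1 := (R2 - R1) / η with ht1
  have ht1n : 0 ≤ t1 := div_nonneg (by linarith) hη0.le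
  have hηt1 : η * t1 = R2 - R1 := by
    rw [ht1]; field_simp
  have hrange : ∀ t ∈ Set.Icc 0 t1, R1 ≤ R2 - η * t ∧ R2 - η * t ≤ R2 := by
    intro t ht
    have h1 : η * t ≤ η * t1 := mul_le_mul_of_nonneg_left ht.2 hη0.le
    have h2 : 0 ≤ η * t := mul_nonneg hη0.le ht.1
    constructor <;> linarith
  have key := core hNE T y (fun t => fld E (fun e => k e t) (y t)) 0 t1 (c Rm) R2 η ht1n
    (D.cpos Rm) D.smooth (hy.ac 0 (Set.mem_Ici.2 le_rfl) t1 ht1n ht1n)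
    (by
      filter_upwards [hy.ode] with s hs hsm
      exact hs hsm.1)
    (by
      intro p hp
      have := hR' R2 (le_max_right _ _) p hp
      rw [mul_zero, sub_zero]
      linarith)
    (by
      intro t ht p hp h1 h2 h3
      have hr := hrange t ht
      have h3' : ∑ j, p.1 j * y t j - p.2 (R2 - η * t) ≤ c (R2 - η * t) :=
        h3.trans (hRm ⟨hr.1, hr.2⟩)
      have hO : ∃ e ∈ E, ∑ j, p.1 j * (e.2 j - e.1 j) ≠ 0 := by
        by_contra hcon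
        push Not at hcon
        have h4 := val_cls x₀ p.1 hcon (y t) (hcls t ht.1)
        have h5 := hx₀ (R2 - η * t) hr.1 p hp
        linarith
      have h6 := hkap (R2 - η * t) hr.1 hr.2 (y t) (fun e => k e t) (fun e he => hk e he t)
        p hp hO h1 h2 h3'
      have h7 : η * deriv p.2 (R2 - η * t) ≤ η * Dh :=
        mul_le_mul_of_nonneg_left (hDh' p hp _ ⟨hr.1, hr.2⟩) hη0.le
      show ∑ j, p.1 j * fld E (fun e => k e t) (y t) j + η * deriv p.2 (R2 - η * t) ≤ 0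
      linarith)
  have hend : ∀ p ∈ T, ∑ j, p.1 j * y t1 j - p.2 R1 ≤ 0 := by
    intro p hp
    have := key t1 ⟨ht1n, le_rfl⟩ p hp
    rwa [hηt1, sub_sub_cancel] at this
  refine ⟨t1 + 1, by linarith, fun t ht => ⟨hcls t (by
    show (0 : ℝ) ≤ t
    linarith), ?_⟩⟩
  have htt : t1 ≤ t := by linarith
  refine stay hNE D k hk R1 hR1 y (fun s => fld E (fun e => k e s) (y s)) t1 t htt
    (hy.ac t1 ht1n t (ht1n.trans htt) htt) ?_ (fun s _ => rfl) hend t ⟨htt, le_rfl⟩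
  filter_upwards [hy.ode] with s hs hsm
  exact hs (ht1n.trans hsm.1)

end

/-- part WR-PERMAN -/
theorem perm : FieldStm → NoExitACStm → CaraStm → UniqStm → PermStm := by
  intro hF hNE hCA hUQ n E hE ε hε x₀ hx₀
  obtain ⟨T, c, M, R0, hc, hM, hc0, hT, hexh, hbnd, hinw, hkap⟩ := hF n E hE ε hε
  have D : Dat E ε T c M R0 := ⟨hc, hM, hc0, hT, hexh, hbnd, hinw, hkap⟩
  obtain ⟨R', hR'⟩ := D.exh x₀ hx₀
  set R1 := max R0 R' with hR1
  have hx₀' : ∀ R, R1 ≤ R → ∀ p ∈ T, ∑ j, p.1 j * x₀ j < p.2 R := fun R hR =>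
    hR' R ((le_max_right _ _).trans hR)
  refine ⟨{z | z ∈ cls E x₀ ∧ ∀ p ∈ T, ∑ j, p.1 j * z j - p.2 R1 ≤ 0},
    compactK D x₀ R1 (le_max_left _ _), fun z hz => hz.1, ?_⟩
  intro k hm hk
  refine ⟨fun z hz => ?_, fun J x hJ h0J hJ0 hx hx0 => ?_⟩
  · obtain ⟨y, hy0, hy, _⟩ := exists_sol hNE hCA hUQ hε D k hm hk z hz.1
    exact ⟨y, hy0, hy⟩
  · obtain ⟨y, hy0, hy, hyu⟩ := exists_sol hNE hCA hUQ hε D k hm hk (x 0) hx0.1
    refine ⟨y, hy, fun t ht => hyu J x hJ h0J hJ0 hx rfl t ht, ?_⟩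
    exact absorb hNE D x₀ k hk R1 (le_max_left _ _) hx₀' y hy (by rw [hy0]; exact hx0)

end Pool.Agent.W287.WR.Perman
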